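import Pool.Agent.H82.EOL.Stmts

/-! Row CM of board eol (MP_e1dfa1_lc). -/

set_option autoImplicit false

namespace Pool.Agent.H86.EOL

open Finset Pool.Agent.H82.SVL Pool.Agent.H82.EOL

theorem ind_nonneg (p : Prop) : 0 ≤ ind p := by
  unfold ind
  split_ifs
  · exact zero_le_one
  · exact le_refl _

theorem ind_congr {p q : Prop} (h : p ↔ q) : ind p = ind q := by rw [propext h]

theorem ind_of_not {p : Prop} (h : ¬ p) : ind p = 0 := by
  unfold ind
  exact if_neg h

theorem cm_thm : S_CM := by
  intro D _ _ srt Y G T
  induction T with
  | leaf b =>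
    intro E σ
    have e1 : ∀ τ : Om srt, ind (Tree.run τ.1 (Tree.leaf b : Tree D Bool) = true ∧
        ∀ a ∈ Tree.qs τ.1 (Tree.leaf b : Tree D Bool), a ∉ E → a ∉ G ∧ τ.1 a ∉ Y ∧
          τ.1 a ∉ (G \ E).image σ.1) = ind (b = true) := by
      intro τ
      apply ind_congr
      simp
    have e2 : ∀ τ : Om srt, ind (Tree.run τ.1 (Tree.leaf b : Tree D Bool) = true ∧
        Av Y E (Tree.qs τ.1 (Tree.leaf b : Tree D Bool)) τ) = ind (b = true) := by
      intro τ
      apply ind_congr
      simp [Av]
    simp only [e1, e2, sum_const, nsmul_eq_mul]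
    apply le_of_eq
    ring
  | query d k ih =>
    intro E σ
    by_cases hdE : d ∈ E
    · have e1 : ∀ τ ∈ C E σ, ind (Tree.run τ.1 (Tree.query d k) = true ∧
          ∀ a ∈ Tree.qs τ.1 (Tree.query d k), a ∉ E → a ∉ G ∧ τ.1 a ∉ Y ∧
            τ.1 a ∉ (G \ E).image σ.1) = ind (Tree.run τ.1 (k (σ.1 d)) = true ∧
          ∀ a ∈ Tree.qs τ.1 (k (σ.1 d)), a ∉ E → a ∉ G ∧ τ.1 a ∉ Y ∧
            τ.1 a ∉ (G \ E).image σ.1) := by
        intro τ hτ
        have hd : τ.1 d = σ.1 d := mem_C.mp hτ d hdE
        apply ind_congr
        rw [Tree.run_query, Tree.qs_query, hd]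
        constructor
        · rintro ⟨h1, h2⟩
          exact ⟨h1, fun a ha => h2 a (mem_insert_of_mem ha)⟩
        · rintro ⟨h1, h2⟩
          refine ⟨h1, fun a ha haE => ?_⟩
          rw [mem_insert] at ha
          rcases ha with rfl | ha
          · exact absurd hdE haE
          · exact h2 a ha haE
      have e2 : ∀ τ ∈ C (E ∪ G) σ, ind (Tree.run τ.1 (Tree.query d k) = true ∧
          Av Y E (Tree.qs τ.1 (Tree.query d k)) τ) = ind (Tree.run τ.1 (k (σ.1 d)) = true ∧
          Av Y E (Tree.qs τ.1 (k (σ.1 d))) τ) := by
        intro τ hτ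
        have hd : τ.1 d = σ.1 d := mem_C.mp hτ d (mem_union_left _ hdE)
        apply ind_congr
        rw [Tree.run_query, Tree.qs_query, hd]
        unfold Av
        constructor
        · rintro ⟨h1, h2⟩
          exact ⟨h1, fun a ha => h2 a (mem_insert_of_mem ha)⟩
        · rintro ⟨h1, h2⟩
          refine ⟨h1, fun a ha haE => ?_⟩
          rw [mem_insert] at ha
          rcases ha with rfl | ha
          · exact absurd hdE haE
          · exact h2 a ha haE
      rw [sum_congr rfl e1, sum_congr rfl e2]
      exact ih (σ.1 d) E σ
    · by_cases hdG : d ∈ G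
      · have e1 : ∀ τ ∈ C E σ, ind (Tree.run τ.1 (Tree.query d k) = true ∧
            ∀ a ∈ Tree.qs τ.1 (Tree.query d k), a ∉ E → a ∉ G ∧ τ.1 a ∉ Y ∧
              τ.1 a ∉ (G \ E).image σ.1) = 0 := by
          intro τ _
          apply ind_of_not
          rintro ⟨-, h2⟩
          exact (h2 d (by rw [Tree.qs_query]; exact mem_insert_self _ _) hdE).1 hdG
        rw [sum_congr rfl e1, sum_const_zero, mul_zero]
        exact mul_nonneg (Nat.cast_nonneg _) (sum_nonneg fun τ _ => ind_nonneg _)
      · have hdEG : d ∉ E ∪ G := by
          rw [mem_union]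
          tauto
        rw [sum_C_fiber hdE σ, sum_C_fiber hdEG σ]
        have hsub : Fr (E ∪ G) σ d ⊆ Fr E σ d := by
          intro v hv
          rw [mem_Fr] at hv ⊢
          exact ⟨hv.1, fun b hb => hv.2 b (mem_union_left _ hb)⟩
        have hzero : ∀ v, (v ∈ Y ∨ v ∈ (G \ E).image σ.1) →
            ∑ τ ∈ (C E σ).filter (fun τ => τ.1 d = v), ind (Tree.run τ.1 (Tree.query d k) = true ∧
              ∀ a ∈ Tree.qs τ.1 (Tree.query d k), a ∉ E → a ∉ G ∧ τ.1 a ∉ Y ∧
              τ.1 a ∉ (G \ E).image σ.1) = 0 := by
          intro v hv
          apply sum_eq_zero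
          intro τ hτ
          rw [mem_filter] at hτ
          apply ind_of_not
          rintro ⟨-, h2⟩
          have h3 := (h2 d (by rw [Tree.qs_query]; exact mem_insert_self _ _) hdE).2
          rw [hτ.2] at h3
          rcases hv with hv | hv
          · exact h3.1 hv
          · exact h3.2 hv
        rw [← sum_subset hsub (by
          intro v hv hv'
          apply hzero
          right
          rw [mem_Fr] at hv hv'
          by_contra hcon
          apply hv'
          refine ⟨hv.1, fun b hb hbv => ?_⟩
          rw [mem_union] at hb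
          by_cases hbE : b ∈ E
          · exact hv.2 b hbE hbv
          · rcases hb with hb | hb
            · exact hbE hb
            · exact hcon (mem_image.mpr ⟨b, mem_sdiff.mpr ⟨hb, hbE⟩, hbv⟩)), mul_sum, mul_sum]
        apply sum_le_sum
        intro v hv
        by_cases hvY : v ∈ Y
        · rw [hzero v (Or.inl hvY), mul_zero]
          exact mul_nonneg (Nat.cast_nonneg _) (sum_nonneg fun τ _ => ind_nonneg _)
        · obtain ⟨ρ, hρ, hρd⟩ := Pool.Agent.H82.SVL.exists_apply_eq hdEG hv
          have hρE : ρ ∈ C E σ := C_mono subset_union_left σ hρ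
          have hvI : v ∉ (G \ E).image σ.1 := by
            intro hcon
            rw [mem_image] at hcon
            obtain ⟨b, hb, hbv⟩ := hcon
            rw [mem_sdiff] at hb
            rw [mem_Fr] at hv
            exact hv.2 b (mem_union_right _ hb.1) hbv
          have hGE : G \ insert d E = G \ E := by
            ext b
            simp only [mem_sdiff, mem_insert]
            constructor
            · rintro ⟨h1, h2⟩
              exact ⟨h1, fun h3 => h2 (Or.inr h3)⟩
            · rintro ⟨h1, h2⟩
              refine ⟨h1, ?_⟩
              rintro (rfl | h3)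
              · exact hdG h1
              · exact h2 h3
          have him : (G \ insert d E).image ρ.1 = (G \ E).image σ.1 := by
            rw [hGE]
            apply image_congr
            intro b hb
            rw [mem_coe, mem_sdiff] at hb
            exact mem_C.mp hρ b (mem_union_right _ hb.1)
          have hins : insert d (E ∪ G) = insert d E ∪ G := by
            rw [insert_union]
          have f1 : (C E σ).filter (fun τ => τ.1 d = v) = C (insert d E) ρ := by
            rw [← hρd]
            exact filter_eq_C hρE
          have f2 : (C (E ∪ G) σ).filter (fun τ => τ.1 d = v) = C (insert d E ∪ G) ρ := by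
            rw [← hρd, filter_eq_C hρ, hins]
          rw [f1, f2]
          have e1 : ∀ τ ∈ C (insert d E) ρ, ind (Tree.run τ.1 (Tree.query d k) = true ∧
              ∀ a ∈ Tree.qs τ.1 (Tree.query d k), a ∉ E → a ∉ G ∧ τ.1 a ∉ Y ∧
                τ.1 a ∉ (G \ E).image σ.1) = ind (Tree.run τ.1 (k v) = true ∧
              ∀ a ∈ Tree.qs τ.1 (k v), a ∉ insert d E → a ∉ G ∧ τ.1 a ∉ Y ∧
                τ.1 a ∉ (G \ insert d E).image ρ.1) := by
            intro τ hτ
            have hd : τ.1 d = v := (mem_C.mp hτ d (mem_insert_self _ _)).trans hρd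
            apply ind_congr
            rw [Tree.run_query, Tree.qs_query, hd, him]
            constructor
            · rintro ⟨h1, h2⟩
              refine ⟨h1, fun a ha haE => ?_⟩
              rw [mem_insert, not_or] at haE
              exact h2 a (mem_insert_of_mem ha) haE.2
            · rintro ⟨h1, h2⟩
              refine ⟨h1, fun a ha haE => ?_⟩
              by_cases had : a = d
              · subst had
                rw [hd]
                exact ⟨hdG, hvY, hvI⟩
              · rw [mem_insert] at ha
                rcases ha with ha | ha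
                · exact absurd ha had
                · exact h2 a ha (by rw [mem_insert]; tauto)
          have e2 : ∀ τ ∈ C (insert d E ∪ G) ρ, ind (Tree.run τ.1 (Tree.query d k) = true ∧
              Av Y E (Tree.qs τ.1 (Tree.query d k)) τ) = ind (Tree.run τ.1 (k v) = true ∧
              Av Y (insert d E) (Tree.qs τ.1 (k v)) τ) := by
            intro τ hτ
            have hd : τ.1 d = v :=
              (mem_C.mp hτ d (mem_union_left _ (mem_insert_self _ _))).trans hρd
            apply ind_congr
            rw [Tree.run_query, Tree.qs_query, hd]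
            unfold Av
            constructor
            · rintro ⟨h1, h2⟩
              refine ⟨h1, fun a ha haE => ?_⟩
              rw [mem_insert, not_or] at haE
              exact h2 a (mem_insert_of_mem ha) haE.2
            · rintro ⟨h1, h2⟩
              refine ⟨h1, fun a ha haE => ?_⟩
              by_cases had : a = d
              · subst had
                rw [hd]
                exact hvY
              · rw [mem_insert] at ha
                rcases ha with ha | ha
                · exact absurd ha had
                · exact h2 a ha (by rw [mem_insert]; tauto)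
          rw [sum_congr rfl e1, sum_congr rfl e2]
          have hI := ih v (insert d E) ρ
          have c1 : (C E σ).card = (C (insert d E) ρ).card * fr srt E d := by
            rw [← C_eq_of_mem hρE]
            exact card_C_insert hdE ρ
          have c2 : (C (E ∪ G) σ).card = (C (insert d E ∪ G) ρ).card * fr srt (E ∪ G) d := by
            rw [← C_eq_of_mem hρ, ← hins]
            exact card_C_insert hdEG ρ
          have c3 : fr srt (E ∪ G) d ≤ fr srt E d := by
            unfold fr
            exact card_le_card (sdiff_subset_sdiff (Subset.refl _) subset_union_left)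
          rw [c1, c2]
          push_cast
          have c3' : (fr srt (E ∪ G) d : ℝ) ≤ (fr srt E d : ℝ) := by exact_mod_cast c3
          set A := ∑ τ ∈ C (insert d E) ρ, ind (Tree.run τ.1 (k v) = true ∧
              ∀ a ∈ Tree.qs τ.1 (k v), a ∉ insert d E → a ∉ G ∧ τ.1 a ∉ Y ∧
                τ.1 a ∉ (G \ insert d E).image ρ.1) with hA
          set B := ∑ τ ∈ C (insert d E ∪ G) ρ, ind (Tree.run τ.1 (k v) = true ∧
              Av Y (insert d E) (Tree.qs τ.1 (k v)) τ) with hB
          have hB0 : 0 ≤ B := sum_nonneg fun τ _ => ind_nonneg _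
          calc ((C (insert d E ∪ G) ρ).card : ℝ) * (fr srt (E ∪ G) d : ℝ) * A
              = (fr srt (E ∪ G) d : ℝ) * (((C (insert d E ∪ G) ρ).card : ℝ) * A) := by ring
            _ ≤ (fr srt (E ∪ G) d : ℝ) * (((C (insert d E) ρ).card : ℝ) * B) :=
                mul_le_mul_of_nonneg_left hI (Nat.cast_nonneg _)
            _ ≤ (fr srt E d : ℝ) * (((C (insert d E) ρ).card : ℝ) * B) :=
                mul_le_mul_of_nonneg_right c3' (mul_nonneg (Nat.cast_nonneg _) hB0)
            _ = ((C (insert d E) ρ).card : ℝ) * (fr srt E d : ℝ) * B := by ring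

end Pool.Agent.H86.EOL
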