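import Pool.Agent.H82.EOL.Stmts

/-! Row GR of board eol (MP_e1dfa1_lc). -/

set_option autoImplicit false

namespace Pool.Agent.H86.EOL

open Finset Pool.Agent.H82.SVL Pool.Agent.H82.EOL

theorem gr_thm : S_GR := by
  intro D X R _ _ _ _ srt h I E π r τ E' s p x hno hτ hEE' hEG hs hp hrun hx
  have hτ1 : (r, τ) ∈ h.Θ ∧ τ ∈ C E π := by simpa [Tn] using hτ
  have hp1 : p ∈ h.Θ ∧ p.2 ∈ C E π := by simpa [Tn] using hp
  have ha1 : ∀ a ∈ E, τ.1 a = π.1 a := mem_C.mp hτ1.2
  have ha2 : ∀ a ∈ E, p.2.1 a = π.1 a := mem_C.mp hp1.2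
  obtain ⟨τ', h1, h2⟩ := exists_common (E₁ := E') (E₂ := E ∪ Tree.qs p.2.1 (I.chk x))
    (σ := τ) (π := p.2) (by
      intro a haE' haU
      rw [mem_union] at haU
      by_cases haE : a ∈ E
      · rw [ha1 a haE, ha2 a haE]
      · rcases haU with haU | haU
        · exact absurd haU haE
        · exact absurd haE' (hx a haU haE).1) (by
      intro a haE' c hcU hac
      rw [mem_union] at hcU
      by_cases hcE : c ∈ E
      · rw [ha2 c hcE, ← ha1 c hcE] at hac
        exact τ.1.injective hac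
      · rcases hcU with hcU | hcU
        · exact absurd hcU hcE
        · by_cases haE : a ∈ E
          · rw [ha1 a haE, ← ha2 a haE] at hac
            exact p.2.1.injective hac
          · exfalso
            refine (hx c hcU hcE).2 (mem_image.mpr ⟨a, mem_sdiff.mpr ⟨haE', haE⟩, hac⟩))
  rw [mem_C] at h1 h2
  refine ⟨?_, τ', ?_, ?_, ?_⟩
  · intro hxs
    rcases qs_dichotomy (I.chk x) E π with hd | ⟨a, haE, hd⟩
    · obtain ⟨σ, hσ, hne⟩ := hno x
      apply hne
      rw [Tree.run_congr (f := p.2.1) (g := σ.1) (T := I.chk x), hrun]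
      intro a ha
      have haE := hd p.2 hp1.2 ha
      rw [mem_C.mp hσ a haE, ha2 a haE]
    · have h3 := hd p.2 hp1.2
      have h4 := (hs x hxs).2 (hd τ hτ1.2)
      exact (hx a h3 haE).1 h4
  · have h3 : τ' ∈ C (h.EG r τ) τ := by
      rw [mem_C]
      exact fun a ha => h1 a (hEG ha)
    have h4 := (h.closed r τ hτ1.1 τ' h3).1
    have h5 : τ' ∈ C E π := by
      rw [mem_C]
      intro a ha
      rw [h1 a (hEE' ha), ha1 a ha]
    simp only [Tn, mem_filter]
    exact ⟨h4, h5⟩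
  · have h3 : τ' ∈ C (h.EG r τ) τ := by
      rw [mem_C]
      exact fun a ha => h1 a (hEG ha)
    rw [(h.closed r τ hτ1.1 τ' h3).2]
    exact hEG.trans subset_union_left
  · intro y hy
    rw [mem_insert] at hy
    rcases hy with rfl | hy
    · have h3 : ∀ a ∈ Tree.qs p.2.1 (I.chk y), τ'.1 a = p.2.1 a := fun a ha =>
        h2 a (mem_union_right _ ha)
      rw [Tree.run_congr h3, Tree.qs_congr h3]
      exact ⟨hrun, subset_union_right⟩
    · have h3 : ∀ a ∈ Tree.qs τ.1 (I.chk y), τ'.1 a = τ.1 a := fun a ha =>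
        h1 a ((hs y hy).2 ha)
      rw [Tree.run_congr h3, Tree.qs_congr h3]
      exact ⟨(hs y hy).1, (hs y hy).2.trans subset_union_left⟩

end Pool.Agent.H86.EOL
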